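import Pool.Agent.Y552.SJ.Stm

/-!
# SJ-CMP: companion matrices over a subring of the reals
-/

set_option autoImplicit false

namespace Pool.Agent.Y38.SJ.Cmp

open Polynomial

theorem main : Pool.Agent.Y552.SJ.S_CMP := by
  intro S p hp hS hn
  let pb : PowerBasis ℝ (AdjoinRoot p) := AdjoinRoot.powerBasis hp.ne_zero
  have hdim : pb.dim = p.natDegree := rfl
  have hmin : minpoly ℝ pb.gen = p := AdjoinRoot.minpoly_powerBasis_gen_of_monic hp
  have hgen : pb.minpolyGen = p := by rw [PowerBasis.minpolyGen_eq, hmin]
  let Y : Matrix (Fin p.natDegree) (Fin p.natDegree) ℝ := Algebra.leftMulMatrix pb.basis pb.gen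
  have hY : ∀ i j, Y i j = if (j : ℕ) + 1 = p.natDegree then -p.coeff i else
      if (i : ℕ) = j + 1 then 1 else 0 := by
    intro i j
    have h := pb.leftMulMatrix
    have h2 := congrFun (congrFun h i) j
    rw [hgen] at h2
    exact h2
  have hYc : Y.charpoly = p := by
    have h := charpoly_leftMulMatrix pb
    rw [hmin] at h
    exact h
  refine ⟨Y.transpose, fun i j => ?_, ?_, fun h1 i => ?_⟩
  · rw [Matrix.transpose_apply, hY]
    split_ifs
    · exact S.neg_mem (hS _)
    · exact S.one_mem
    · exact S.zero_mem
  · rw [Matrix.charpoly_transpose, hYc]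
  · simp only [Matrix.transpose_apply, hY]
    by_cases hi : (i : ℕ) + 1 = p.natDegree
    · simp only [hi, if_true]
      have h2 : p.eval 1 = ∑ j ∈ Finset.range (p.natDegree + 1), p.coeff j := by
        rw [Polynomial.eval_eq_sum_range]
        simp
      rw [h1, Finset.sum_range_succ, Polynomial.coeff_natDegree, hp.leadingCoeff] at h2
      rw [Finset.sum_neg_distrib, Fin.sum_univ_eq_sum_range (fun j => p.coeff j)]
      linarith
    · simp only [hi, if_false]
      have hlt : (i : ℕ) + 1 < p.natDegree := by have := i.2; omega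
      rw [Finset.sum_eq_single (⟨i + 1, hlt⟩ : Fin p.natDegree)]
      · simp
      · intro b _ hb
        rw [if_neg]
        intro h
        exact hb (Fin.ext h)
      · intro h
        exact absurd (Finset.mem_univ _) h

end Pool.Agent.Y38.SJ.Cmp
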